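import Mathlib
import Pool.Agent.Helper9.FA.Defs

/-!
# The hypotheses on angle assignments are satisfiable: the pattern of the Borromean rings
-/

namespace Pool.Agent.Helper10.FA

open Pool.Agent.Helper9.Kashaev Pool.Agent.Helper9.FA

/-- the angles at the first vertex of the pattern -/
noncomputable def borC1 : Cor ℝ := ⟨Real.pi / 4, 0, 3 * Real.pi / 4, 0, Real.pi / 4⟩

/-- the angles at the second vertex of the pattern -/
noncomputable def borC2 : Cor ℝ := ⟨Real.pi / 4, 3 * Real.pi / 4, 0, Real.pi / 4, 0⟩

/-- The pattern with two vertices and four edges between them (its fully augmented link without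
twists is the link of the Borromean rings) has an angle assignment with `0 < n < π / 2`. -/
theorem borromean_ang {α : Type} (a b : α) :
    Ang [Item.cup 1, Item.box 0 a, Item.box 1 b, Item.cap 0] [0, 0] [borC1, borC2] ∧
      ∀ c ∈ [borC1, borC2], c.Strict := by
  have hpi := Real.pi_pos
  have h4 : Ang (α := α) [Item.cap 0] [0, 0, Real.pi, 0] [] := by
    have h := Ang.cap (α := α) (P := []) (l := []) (r := [0]) (x := 0) (a := 0) (b := Real.pi)
      (cs := []) Ang.nil le_rfl hpi.le (by ring)
    exact h
  have h3 : Ang [Item.box 1 b, Item.cap 0] [0, 3 * Real.pi / 4, Real.pi / 4, 0] [borC2] := by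
    have h := Ang.box (α := α) (P := [Item.cap 0]) (l := [0]) (r := []) (x := 0) (y := 0) (e := b)
      (c := borC2) (cs := []) (by simpa [borC2] using h4)
      ⟨by simp [borC2]; positivity, by simp [borC2], by simp [borC2]; positivity, by simp [borC2],
        by simp [borC2]; ring, by simp [borC2], by simp [borC2]; positivity,
        by simp [borC2]; linarith, by simp [borC2]; linarith, by simp [borC2]; linarith⟩
    simpa [borC2] using h
  have h2 : Ang [Item.box 0 a, Item.box 1 b, Item.cap 0] [0, 0, Real.pi, 0] [borC1, borC2] := by
    have h := Ang.box (α := α) (P := [Item.box 1 b, Item.cap 0]) (l := []) (r := [0]) (x := 0)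
      (y := Real.pi / 4) (e := a) (c := borC1) (cs := [borC2])
      (by
        have e : Real.pi - borC1.uT = 3 * Real.pi / 4 := by simp [borC1]; ring
        rw [e]
        exact h3)
      ⟨by simp [borC1], by simp [borC1]; positivity, by simp [borC1], by simp [borC1]; positivity,
        by simp [borC1]; ring, by simp [borC1]; positivity, by simp [borC1],
        by simp [borC1]; linarith, by simp [borC1]; linarith, by simp [borC1]; linarith⟩
    have e1 : (0 : ℝ) + borC1.uL = 0 := by simp [borC1]
    have e2 : Real.pi / 4 + borC1.uR = Real.pi := by simp [borC1]; ring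
    have e3 : borC1.uB = 0 := by simp [borC1]
    rw [e1, e2, e3] at h
    exact h
  refine ⟨?_, ?_⟩
  · have h := Ang.cup (α := α) (P := [Item.box 0 a, Item.box 1 b, Item.cap 0]) (l := [0])
      (r := []) (a := 0) (b := 0) (cs := [borC1, borC2]) (by simpa using h2)
    simpa using h
  · intro c hc
    simp only [List.mem_cons, List.not_mem_nil, or_false] at hc
    rcases hc with rfl | rfl
    · exact ⟨by simp [borC1]; positivity, by simp [borC1]; linarith⟩
    · exact ⟨by simp [borC2]; positivity, by simp [borC2]; linarith⟩

end Pool.Agent.Helper10.FA
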